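import Pool.Agent.R686.MU.Main
import Pool.Agent.R686.MU.Fin
import Pool.Agent.R686.MU.Coef
import Pool.Agent.R686.MU.Conv
import Pool.Agent.R686.MU.Up
import Pool.Agent.R686.MU.Low
import Pool.Agent.R686.MU.Cyc
import Pool.Agent.R686.MU.G
import Pool.Agent.R686.MU.F3
import Pool.Agent.R686.MU.F5
import Pool.Agent.R686.MU.Uf
import Pool.Agent.R686.MU.Num
import Pool.Agent.R686.MU.StmEx
import Pool.Agent.R686.MU.Ex1
import Pool.Agent.R686.MU.Ex2
import Pool.Agent.R686.MU.Ex3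

/-!
# Extreme mixed multiplicities of skeleta need not be unimodal (MP_4aa539_al, Q1: disproved)

`Δ` is the disjoint union of `M` simplices of dimension 5 and of a complex `Δ₀` with vertex set
`U ∪ W ∪ Z`, `|U| = p`, `|W| = 3 p - 2`, `|Z| = 4`, whose facets are all the 6-subsets of `U` and all the
sets `{u, w} ∪ Z`, `u ∈ U`, `w ∈ W`; `p` is large and `M` is about `p / 100`.  The dimension of
`J^u/𝔪 J^u` is the number of the vectors which are sums of the indicator vectors of `u_i` faces of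
dimension `i` (`i < 5`).
-/

set_option autoImplicit false

namespace Pool.Agent.Results.MP_4aa539_al.NotUnimodal

open Pool.Agent.R686.MU

/-- There is a pure simplicial complex `Δ` of dimension 5 such that, over every field `K`, the mixed
multiplicities `e_a(𝔪 | I_1, …, I_4)` exist and
`A(3, Δ) < A(2, Δ)` and `A(3, Δ) < A(4, Δ)`; so `A(0, Δ), …, A(4, Δ)` is not unimodal. -/
theorem result : ∃ (V : Type) (_ : Fintype V) (Δ : Finset (Finset V)), IsPureComplex 5 Δ ∧
    ∀ (K : Type) [Field K], (∃ e : (Fin 5 →₀ ℕ) → ℚ, IsMixedMult K 5 Δ e) ∧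
      ∀ e : (Fin 5 →₀ ℕ) → ℚ, IsMixedMult K 5 Δ e →
        A (V := V) (d := 5) e 3 < A (V := V) (d := 5) e 2 ∧
        A (V := V) (d := 5) e 3 < A (V := V) (d := 5) e 4 := by
  obtain ⟨M, p, hp, hΔ, h⟩ := main FinP.fin coef cu cl UP.up Low.low (GP.g3 cyc) (GP.g5 cyc) GP.ug (f3 cyc)
    (f5 cyc) uf num pure
  have : Nonempty (VV M p) := ⟨Sum.inl (Sum.inl ⟨0, by omega⟩)⟩
  exact ⟨VV M p, inferInstance, DD M p, hΔ, fun K _ =>
    ⟨exists_mixedMult FinP.fin Ex1P.ex1 Ex2P.ex2 Ex3P.ex3 K (VV M p) 5 (DD M p) hΔ.vertex, h K⟩⟩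

end Pool.Agent.Results.MP_4aa539_al.NotUnimodal
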